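import Pool.Agent.Q262.NV.Tower

/-!
# Functors on groups and injective homomorphisms, and kernels of natural transformations
-/

set_option autoImplicit false
set_option linter.unusedSectionVars false
set_option linter.unusedVariables false

namespace Pool.Agent.Q262.NV

open Pool.Agent.Q143.MV (jh)

/-- A functor from the category of groups and injective homomorphisms to abelian groups. -/
structure MFun where
  /-- the values on groups -/
  obj : ∀ (G : Type) [Group G], Type
  /-- the values are abelian groups -/
  inst : ∀ (G : Type) [Group G], AddCommGroup (obj G)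
  /-- the induced maps -/
  map : ∀ {G H : Type} [Group G] [Group H] (f : G →* H), Function.Injective f → obj G → obj H
  map_add : ∀ {G H : Type} [Group G] [Group H] (f : G →* H) (hf : Function.Injective f)
    (x y : obj G), map f hf (x + y) = map f hf x + map f hf y
  map_id : ∀ (G : Type) [Group G] (x : obj G),
    map (MonoidHom.id G) Function.injective_id x = x
  map_comp : ∀ {G H K : Type} [Group G] [Group H] [Group K] (g : H →* K) (f : G →* H)
    (hg : Function.Injective g) (hf : Function.Injective f) (x : obj G),
    map (g.comp f) (hg.comp hf) x = map g hg (map f hf x)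

attribute [instance] MFun.inst

/-- A natural transformation. -/
structure MNat (H E : MFun) where
  /-- the maps -/
  app : ∀ (G : Type) [Group G], H.obj G → E.obj G
  app_add : ∀ (G : Type) [Group G] (x y : H.obj G), app G (x + y) = app G x + app G y
  nat : ∀ {G G' : Type} [Group G] [Group G'] (f : G →* G') (hf : Function.Injective f)
    (x : H.obj G), app G' (H.map f hf x) = E.map f hf (app G x)

namespace MFun

variable (E : MFun) {G G' : Type} [Group G] [Group G']

/-- the induced map as a homomorphism -/
def hom (f : G →* G') (hf : Function.Injective f) : E.obj G →+ E.obj G' :=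
  AddMonoidHom.mk' (E.map f hf) (E.map_add f hf)

theorem map_zero (f : G →* G') (hf : Function.Injective f) : E.map f hf 0 = 0 :=
  (E.hom f hf).map_zero

theorem map_sub (f : G →* G') (hf : Function.Injective f) (x y : E.obj G) :
    E.map f hf (x - y) = E.map f hf x - E.map f hf y := (E.hom f hf).map_sub x y

theorem map_nsmul (f : G →* G') (hf : Function.Injective f) (n : ℕ) (x : E.obj G) :
    E.map f hf (n • x) = n • E.map f hf x := _root_.map_nsmul (E.hom f hf) n x

theorem map_sum (f : G →* G') (hf : Function.Injective f) {ι : Type} (s : Finset ι)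
    (x : ι → E.obj G) : E.map f hf (∑ i ∈ s, x i) = ∑ i ∈ s, E.map f hf (x i) :=
  _root_.map_sum (E.hom f hf) x s

theorem map_congr {f f' : G →* G'} (h : f = f') (hf : Function.Injective f)
    (hf' : Function.Injective f') (x : E.obj G) : E.map f hf x = E.map f' hf' x := by
  subst h; rfl

theorem map_comp' {K : Type} [Group K] {g : G' →* K} {f : G →* G'} {k : G →* K}
    (h : k = g.comp f) (hk : Function.Injective k) (hg : Function.Injective g)
    (hf : Function.Injective f) (x : E.obj G) : E.map g hg (E.map f hf x) = E.map k hk x := by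
  subst h
  exact (E.map_comp g f hg hf x).symm

end MFun

namespace MNat

variable {H E : MFun} (α : MNat H E) (G : Type) [Group G]

/-- the map as a homomorphism -/
def hom : H.obj G →+ E.obj G := AddMonoidHom.mk' (α.app G) (α.app_add G)

theorem app_zero : α.app G 0 = 0 := (α.hom G).map_zero

theorem app_nsmul (n : ℕ) (x : H.obj G) : α.app G (n • x) = n • α.app G x :=
  _root_.map_nsmul (α.hom G) n x

theorem app_sum {ι : Type} (s : Finset ι) (x : ι → H.obj G) :
    α.app G (∑ i ∈ s, x i) = ∑ i ∈ s, α.app G (x i) :=
  _root_.map_sum (α.hom G) x s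

end MNat

/-- Inner automorphisms induce the identity. -/
def InnerTrivM (H : MFun) : Prop :=
  ∀ (G : Type) [Group G] (g : G) (x : H.obj G),
    H.map (MulAut.conj g).toMonoidHom (MulAut.conj g).injective x = x

/-- For a directed union of subgroups each element of `H(G)` comes from one of them. -/
def ContM (H : MFun) : Prop :=
  ∀ (G : Type) [Group G] (I : Type) [Preorder I] [Nonempty I],
    (∀ i j : I, ∃ k, i ≤ k ∧ j ≤ k) → ∀ S : I → Subgroup G, Monotone S → (∀ g, ∃ i, g ∈ S i) →
    ∀ x : H.obj G, ∃ (i : I) (y : H.obj (S i)),
      x = H.map (S i).subtype (S i).subtype_injective y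

/-- For a directed union of subgroups, an element of `E` of a member which dies in `E(G)` dies in `E` of
a larger member. -/
def ContKerM (E : MFun) : Prop :=
  ∀ (G : Type) [Group G] (I : Type) [Preorder I] [Nonempty I],
    (∀ i j : I, ∃ k, i ≤ k ∧ j ≤ k) → ∀ (S : I → Subgroup G) (hS : Monotone S),
    (∀ g, ∃ i, g ∈ S i) → ∀ (i : I) (x : E.obj (S i)),
      E.map (S i).subtype (S i).subtype_injective x = 0 →
      ∃ (j : I) (h : i ≤ j),
        E.map (Subgroup.inclusion (hS h)) (Subgroup.inclusion_injective (hS h)) x = 0

theorem jh_injective {G : Type} [Group G] {A B : Subgroup G} (φ : A ≃* B) :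
    Function.Injective (jh φ) := fun _ _ h => φ.injective (B.subtype_injective h)

/-- The Mayer–Vietoris sequences of HNN extensions, for a natural transformation `β` of functors and the
natural transformation `α` one degree lower: there are boundary homomorphisms which commute with the
natural transformations, elements in the kernel of the boundary map of `H'` come from the base group,
the two maps from the associated subgroup become equal in the HNN extension, and elements of `H'` and
of `E'` of the base group which die in the HNN extension are differences of the two images of an element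
of the associated subgroup. -/
def HnnLadderM {H' H E' E : MFun} (β : MNat H' E') (α : MNat H E) : Prop :=
  ∀ (G : Type) [Group G] (A B : Subgroup G) (φ : A ≃* B),
    (∃ (δ : H'.obj (HNNExtension G A B φ) →+ H.obj A)
      (ε : E'.obj (HNNExtension G A B φ) →+ E.obj A),
      (∀ x, α.app A (δ x) = ε (β.app _ x)) ∧
      ∀ x, δ x = 0 → ∃ y : H'.obj G, x = H'.map HNNExtension.of (HNNExtension.of_injective φ) y) ∧
    (∀ d : H'.obj A,
      H'.map (HNNExtension.of (φ := φ)) (HNNExtension.of_injective φ)
        (H'.map A.subtype A.subtype_injective d) =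
      H'.map (HNNExtension.of (φ := φ)) (HNNExtension.of_injective φ)
        (H'.map (jh φ) (jh_injective φ) d)) ∧
    (∀ y : H'.obj G, H'.map (HNNExtension.of (φ := φ)) (HNNExtension.of_injective φ) y = 0 →
      ∃ c : H'.obj A, y = H'.map A.subtype A.subtype_injective c -
        H'.map (jh φ) (jh_injective φ) c) ∧
    ∀ y : E'.obj G, E'.map (HNNExtension.of (φ := φ)) (HNNExtension.of_injective φ) y = 0 →
      ∃ c : E'.obj A, y = E'.map A.subtype A.subtype_injective c -
        E'.map (jh φ) (jh_injective φ) c

/-- Every element of the kernel of `α` for `G` is killed by a number of `S`. -/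
def KerTor (S : Submonoid ℕ) {H E : MFun} (α : MNat H E) (G : Type) [Group G] : Prop :=
  ∀ x : H.obj G, α.app G x = 0 → ∃ s ∈ S, s • x = 0

/-- every element comes from a finitely generated subgroup -/
theorem from_fgM {H : MFun} (hc : ContM H) (G : Type) [Group G] (x : H.obj G) :
    ∃ (F : Finset G) (y : H.obj (Subgroup.closure (F : Set G))),
      x = H.map (Subgroup.closure (F : Set G)).subtype (Subgroup.subtype_injective _) y := by
  classical
  exact hc G (Finset G) (fun i j => ⟨i ∪ j, Finset.subset_union_left, Finset.subset_union_right⟩)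
    (fun F => Subgroup.closure (F : Set G))
    (fun F F' h => Subgroup.closure_mono (Finset.coe_subset.2 h))
    (fun g => ⟨{g}, Subgroup.subset_closure (by simp)⟩) x

theorem conj_onM {H : MFun} (hi : InnerTrivM H) {A G : Type} [Group A] [Group G] (f f' : A →* G)
    (hf : Function.Injective f) (hf' : Function.Injective f')
    (F : Finset A) (g : G) (h : ∀ a ∈ F, f a = g * f' a * g⁻¹)
    (y : H.obj (Subgroup.closure (F : Set A))) :
    H.map f hf (H.map (Subgroup.closure (F : Set A)).subtype (Subgroup.subtype_injective _) y) =
      H.map f' hf'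
        (H.map (Subgroup.closure (F : Set A)).subtype (Subgroup.subtype_injective _) y) := by
  have h1 : f.comp (Subgroup.closure (F : Set A)).subtype =
      (MulAut.conj g).toMonoidHom.comp (f'.comp (Subgroup.closure (F : Set A)).subtype) := by
    have h2 : Set.EqOn f ((MulAut.conj g).toMonoidHom.comp f') (Subgroup.closure (F : Set A)) := by
      apply MonoidHom.eqOn_closure
      intro a ha
      exact h a ha
    ext ⟨a, ha⟩
    exact h2 ha
  rw [← H.map_comp, ← H.map_comp]
  rw [H.map_congr h1 _ ((MulAut.conj g).injective.comp (hf'.comp (Subgroup.subtype_injective _)))]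
  rw [H.map_comp (MulAut.conj g).toMonoidHom _ (MulAut.conj g).injective]
  exact hi G g _

theorem map_locM {H : MFun} (hc : ContM H) (hi : InnerTrivM H) {A G : Type} [Group A] [Group G]
    {f f' : A →* G} (hf : Function.Injective f) (hf' : Function.Injective f')
    (h : LocConj f f') (x : H.obj A) : H.map f hf x = H.map f' hf' x := by
  obtain ⟨F, y, rfl⟩ := from_fgM hc A x
  obtain ⟨g, hg⟩ := h F
  exact conj_onM hi f f' hf hf' F g hg y

variable {H' H E' E : MFun} {β : MNat H' E'} {α : MNat H E}

/-- **HNN extensions along locally inner maps.** -/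
theorem kerTor_loc (S : Submonoid ℕ) (hL : HnnLadderM β α) (hc : ContM E') (hi : InnerTrivM E')
    {G : Type} [Group G] {A B : Subgroup G} {φ : A ≃* B} (h : LocConj (jh φ) A.subtype)
    (hβ : KerTor S β G) (hα : KerTor S α A) : KerTor S β (HNNExtension G A B φ) := by
  obtain ⟨⟨δ, ε, hδε, hδ⟩, -, -, hker⟩ := hL G A B φ
  intro x hx
  obtain ⟨s, hs, h1⟩ := hα (δ x) (by rw [hδε, hx, map_zero])
  obtain ⟨y, hy⟩ := hδ (s • x) (by rw [map_nsmul, h1])
  have h2 : E'.map (HNNExtension.of (φ := φ)) (HNNExtension.of_injective φ) (β.app G y) = 0 := by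
    rw [← β.nat, ← hy, β.app_nsmul, hx, nsmul_zero]
  obtain ⟨c, hcc⟩ := hker _ h2
  rw [map_locM hc hi (jh_injective φ) A.subtype_injective h c, sub_self] at hcc
  obtain ⟨s', hs', h3⟩ := hβ y hcc
  refine ⟨s' * s, S.mul_mem hs' hs, ?_⟩
  rw [mul_nsmul', hy, ← H'.map_nsmul, h3, H'.map_zero]

/-- the kernels -/
theorem ker_loc (hL : HnnLadderM β α) (hc : ContM E') (hi : InnerTrivM E') (hc' : ContM H')
    (hi' : InnerTrivM H')
    {G : Type} [Group G] {A B : Subgroup G} {φ : A ≃* B} (h : LocConj (jh φ) A.subtype) :
    Function.Injective (H'.map (HNNExtension.of (φ := φ)) (HNNExtension.of_injective φ)) ∧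
    ((∀ z, α.app A z = 0 → z = 0) → ∀ x : H'.obj (HNNExtension G A B φ),
      β.app _ x = 0 ↔ ∃ y, β.app G y = 0 ∧ H'.map HNNExtension.of (HNNExtension.of_injective φ) y = x) := by
  obtain ⟨⟨δ, ε, hδε, hδ⟩, -, hker', hker⟩ := hL G A B φ
  constructor
  · change Function.Injective (H'.hom (HNNExtension.of (φ := φ)) (HNNExtension.of_injective φ))
    rw [injective_iff_map_eq_zero]
    intro y hy
    obtain ⟨c, hcc⟩ := hker' y hy
    rw [hcc, map_locM hc' hi' (jh_injective φ) A.subtype_injective h c, sub_self]
  · intro hα x
    constructor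
    · intro hx
      obtain ⟨y, hy⟩ := hδ x (hα _ (by rw [hδε, hx, map_zero]))
      refine ⟨y, ?_, hy.symm⟩
      have h2 : E'.map (HNNExtension.of (φ := φ)) (HNNExtension.of_injective φ) (β.app G y) = 0 := by
        rw [← β.nat, ← hy, hx]
      obtain ⟨c, hcc⟩ := hker _ h2
      rw [hcc, map_locM hc hi (jh_injective φ) A.subtype_injective h c, sub_self]
    · rintro ⟨y, h1, rfl⟩
      rw [β.nat, h1, E'.map_zero]

theorem eqv_inj {G G' : Type} [Group G] [Group G'] (e : G ≃* G') :
    Function.Injective e.toMonoidHom := e.injective

theorem kerTor_equiv (S : Submonoid ℕ) {H E : MFun} (α : MNat H E) {G G' : Type} [Group G]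
    [Group G'] (e : G ≃* G') (h : KerTor S α G') : KerTor S α G := by
  intro x hx
  obtain ⟨s, hs, h1⟩ := h (H.map e.toMonoidHom (eqv_inj e) x) (by rw [α.nat, hx, E.map_zero])
  refine ⟨s, hs, ?_⟩
  have h2 := congrArg (H.map e.symm.toMonoidHom (eqv_inj e.symm)) h1
  rw [H.map_nsmul, H.map_zero, H.map_comp' (k := MonoidHom.id G)
    (MonoidHom.ext fun g => (e.symm_apply_apply g).symm) Function.injective_id, H.map_id] at h2
  exact h2

end Pool.Agent.Q262.NV
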