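import Pool.Agent.Q143.MV.Hnn
import Pool.Agent.Helper688.LPres.Ascend

/-!
# Natural transformations and HNN extensions along locally inner maps
-/

set_option autoImplicit false
set_option linter.unusedSectionVars false
set_option linter.unusedVariables false

namespace Pool.Agent.Q262.NV

open Pool.Agent.Q143.MV

/-- Inner automorphisms induce the identity. -/
def InnerTriv (H : GFun) : Prop :=
  ∀ (G : Type) [Group G] (g : G) (x : H.obj G), H.map (MulAut.conj g).toMonoidHom x = x

/-- The homomorphisms `f`, `f' : A → G` are conjugate on every finite subset of `A`. -/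
def LocConj {A G : Type} [Group A] [Group G] (f f' : A →* G) : Prop :=
  ∀ F : Finset A, ∃ g : G, ∀ a ∈ F, f a = g * f' a * g⁻¹

/-- every element comes from a finitely generated subgroup -/
theorem from_fg {H : GFun} (hc : Cont H) (G : Type) [Group G] (x : H.obj G) :
    ∃ (F : Finset G) (y : H.obj (Subgroup.closure (F : Set G))),
      x = H.map (Subgroup.closure (F : Set G)).subtype y := by
  classical
  exact hc G (Finset G) (fun i j => ⟨i ∪ j, Finset.subset_union_left, Finset.subset_union_right⟩)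
    (fun F => Subgroup.closure (F : Set G))
    (fun F F' h => Subgroup.closure_mono (Finset.coe_subset.2 h))
    (fun g => ⟨{g}, Subgroup.subset_closure (by simp)⟩) x

/-- homomorphisms which are conjugate on the generators have the same effect on the elements -/
theorem conj_on {H : GFun} (hi : InnerTriv H) {A G : Type} [Group A] [Group G] (f f' : A →* G)
    (F : Finset A) (g : G) (h : ∀ a ∈ F, f a = g * f' a * g⁻¹)
    (y : H.obj (Subgroup.closure (F : Set A))) :
    H.map f (H.map (Subgroup.closure (F : Set A)).subtype y) =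
      H.map f' (H.map (Subgroup.closure (F : Set A)).subtype y) := by
  rw [← H.map_comp, ← H.map_comp]
  have h1 : f.comp (Subgroup.closure (F : Set A)).subtype =
      (MulAut.conj g).toMonoidHom.comp (f'.comp (Subgroup.closure (F : Set A)).subtype) := by
    have h2 : Set.EqOn f ((MulAut.conj g).toMonoidHom.comp f') (Subgroup.closure (F : Set A)) := by
      apply MonoidHom.eqOn_closure
      intro a ha
      exact h a ha
    ext ⟨a, ha⟩
    exact h2 ha
  rw [h1, H.map_comp, hi]

theorem map_loc {H : GFun} (hc : Cont H) (hi : InnerTriv H) {A G : Type} [Group A] [Group G]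
    {f f' : A →* G} (h : LocConj f f') (x : H.obj A) : H.map f x = H.map f' x := by
  obtain ⟨F, y, rfl⟩ := from_fg hc A x
  obtain ⟨g, hg⟩ := h F
  exact conj_on hi f f' F g hg y

variable {H' H E' E : GFun} {β : GNat H' E'} {α : GNat H E}

/-- **HNN extensions along locally inner maps.** -/
theorem inj_loc (hL : HnnLadder β α) (hc : Cont E') (hi : InnerTriv E') {G : Type} [Group G]
    {A B : Subgroup G} {φ : A ≃* B} (h : LocConj (jh φ) A.subtype)
    (hβ : Inj β G) (hα : Inj α A) : Inj β (HNNExtension G A B φ) := by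
  obtain ⟨⟨δ, ε, hε, hδε, hδ⟩, hcomp, hker⟩ := hL G A B φ
  refine β.inj_of _ (fun x hx => ?_)
  have h1 : δ x = 0 := by
    apply hα
    rw [hδε, hx, hε, α.app_zero]
  obtain ⟨y, rfl⟩ := hδ x h1
  rw [β.nat] at hx
  obtain ⟨c, hcc⟩ := hker _ hx
  rw [map_loc hc hi h c, sub_self] at hcc
  have h2 : y = 0 := hβ (by rw [hcc, β.app_zero])
  rw [h2, H'.map_zero]

theorem itr_add {A : Type} [Group A] (θ : A →* A) (m n : ℕ) :
    itr θ (m + n) = (itr θ m).comp (itr θ n) := by
  induction n with
  | zero => ext x; rfl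
  | succ n ih =>
    change (itr θ (m + n)).comp θ = (itr θ m).comp ((itr θ n).comp θ)
    rw [ih]
    rfl

theorem itr_add_apply {A : Type} [Group A] (θ : A →* A) (m n : ℕ) (a : A) :
    itr θ (m + n) a = itr θ m (itr θ n a) := by
  rw [itr_add]; rfl

theorem itr_zero {A : Type} [Group A] (θ : A →* A) (a : A) : itr θ 0 a = a := rfl

theorem itr_one {A : Type} [Group A] (θ : A →* A) : itr θ 1 = θ := by
  ext x; rfl

theorem itr_comm {A : Type} [Group A] (θ : A →* A) (m : ℕ) (a : A) :
    itr θ m (θ a) = θ (itr θ m a) := by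
  have h1 : itr θ (m + 1) = itr θ (1 + m) := by rw [add_comm]
  rw [itr_add, itr_add, itr_one] at h1
  exact DFunLike.congr_fun h1 a

/-- telescoping -/
theorem itr_tel {A : Type} [Group A] (θ : A →* A) (c : E'.obj A) (w : H'.obj A)
    (h : c - E'.map θ c = β.app A w) (n : ℕ) :
    E'.map (itr θ n) c - E'.map (itr θ (n + 1)) c = β.app A (H'.map (itr θ n) w) := by
  rw [β.nat, ← h, E'.map_sub]
  congr 1
  rw [← E'.map_comp]
  rfl

/-- **HNN extensions over retracts with locally eventually periodic holonomy.** -/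
theorem inj_retr (hL : HnnLadder β α) (hcE : Cont E') (hiE : InnerTriv E') (hcH : Cont H')
    (hiH : InnerTriv H') {G : Type} [Group G] {A B : Subgroup G} {φ : A ≃* B}
    (r : G →* A) (hr : ∀ a : A, r a = a)
    (h1 : ∀ F : Finset A, ∃ (k : ℕ) (g : G), ∀ a ∈ F, jh φ (itr (r.comp (jh φ)) k a) =
      g * itr (r.comp (jh φ)) (k + 1) a * g⁻¹)
    (h2 : ∀ F : Finset A, ∃ (k m : ℕ) (b : A), 0 < m ∧
      (∀ x : H'.obj (HNNExtension G A B φ), m • x = 0 → x = 0) ∧
      ∀ a ∈ F, itr (r.comp (jh φ)) (k + m) a = b * itr (r.comp (jh φ)) k a * b⁻¹)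
    (hβ : Inj β G) (hα : Inj α G) : Inj β (HNNExtension G A B φ) := by
  classical
  obtain ⟨⟨δ, ε, hε, hδε, hδ⟩, hcomp, hker⟩ := hL G A B φ
  have hαA : Inj α A := inj_retract α A.subtype r hr hα
  have hβA : Inj β A := inj_retract β A.subtype r hr hβ
  have hrc : r.comp A.subtype = MonoidHom.id A := MonoidHom.ext hr
  obtain ⟨θ, hθ⟩ : ∃ θ : A →* A, θ = r.comp (jh φ) := ⟨_, rfl⟩
  rw [← hθ] at h1 h2
  refine β.inj_of _ (fun x hx => ?_)
  have h3 : δ x = 0 := by
    apply hαA
    rw [hδε, hx, hε, α.app_zero]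
  obtain ⟨y, rfl⟩ := hδ x h3
  rw [β.nat] at hx
  obtain ⟨c, hc⟩ := hker _ hx
  obtain ⟨w, hw⟩ : ∃ w, w = H'.map r y := ⟨_, rfl⟩
  have h4 : c - E'.map θ c = β.app A w := by
    rw [hw, β.nat, hc, E'.map_sub, ← E'.map_comp, ← E'.map_comp, hrc, E'.map_id, hθ]
  -- finitely many elements
  obtain ⟨F1, c1, hc1⟩ := from_fg hcE A c
  obtain ⟨F2, w2, hw2⟩ := from_fg hcH A w
  obtain ⟨k1, m, b, hm, htf, hb⟩ := h2 (F1 ∪ F2)
  obtain ⟨k3, g, hg⟩ := h1 ((Finset.range (m + 1)).biUnion fun j =>
    (F1 ∪ F2).image fun a => itr θ (j + k1) a)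
  obtain ⟨K, hK⟩ : ∃ K, K = k3 + k1 := ⟨_, rfl⟩
  -- relations at `K`
  have hR : ∀ j, j ≤ m → ∀ a ∈ F1 ∪ F2, jh φ (itr θ (K + j) a) =
      g * itr θ (K + j + 1) a * g⁻¹ := by
    intro j hj a ha
    have h5 := hg (itr θ (j + k1) a) (by
      rw [Finset.mem_biUnion]
      exact ⟨j, Finset.mem_range.2 (by omega), Finset.mem_image_of_mem _ ha⟩)
    have e1 : itr θ k3 (itr θ (j + k1) a) = itr θ (K + j) a := by
      rw [show K + j = k3 + (j + k1) by omega]
      exact (itr_add_apply θ _ _ a).symm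
    have e2 : itr θ (k3 + 1) (itr θ (j + k1) a) = itr θ (K + j + 1) a := by
      rw [show K + j + 1 = (k3 + 1) + (j + k1) by omega]
      exact (itr_add_apply θ _ _ a).symm
    rw [e1, e2] at h5
    exact h5
  have hP : ∀ a ∈ F1 ∪ F2, itr θ (K + m) a = itr θ k3 b * itr θ K a * (itr θ k3 b)⁻¹ := by
    intro a ha
    rw [show K + m = k3 + (k1 + m) by omega, itr_add_apply, hb a ha, map_mul, map_mul, map_inv,
      hK, itr_add_apply]
  -- consequences for the elements
  have hPc : E'.map (itr θ (K + m)) c = E'.map (itr θ K) c := by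
    rw [hc1]
    exact conj_on hiE _ _ F1 _ (fun a ha => hP a (Finset.mem_union_left _ ha)) c1
  have hPw : H'.map (itr θ (K + m)) w = H'.map (itr θ K) w := by
    rw [hw2]
    exact conj_on hiH _ _ F2 _ (fun a ha => hP a (Finset.mem_union_right _ ha)) w2
  have hRc : E'.map (jh φ) (E'.map (itr θ K) c) = E'.map A.subtype (E'.map (itr θ (K + 1)) c) := by
    rw [← E'.map_comp, ← E'.map_comp, hc1]
    exact conj_on hiE ((jh φ).comp (itr θ K)) (A.subtype.comp (itr θ (K + 1))) F1 g
      (fun a ha => hR 0 (by omega) a (Finset.mem_union_left _ ha)) c1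
  have hRw : ∀ j, j ≤ m → H'.map (jh φ) (H'.map (itr θ (K + j)) w) =
      H'.map A.subtype (H'.map (itr θ (K + j + 1)) w) := by
    intro j hj
    rw [← H'.map_comp, ← H'.map_comp, hw2]
    exact conj_on hiH ((jh φ).comp (itr θ (K + j))) (A.subtype.comp (itr θ (K + j + 1))) F2 g
      (fun a ha => hR j hj a (Finset.mem_union_right _ ha)) w2
  -- the element `y`
  obtain ⟨d, hd⟩ := itr_sol θ c w h4 K
  obtain ⟨v, hv⟩ : ∃ v, v = H'.map (itr θ K) w := ⟨_, rfl⟩
  have h5 : E'.map (itr θ K) c - E'.map (itr θ (K + 1)) c = β.app A v := by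
    rw [hv]; exact itr_tel θ c w h4 K
  have h6 : y = H'.map A.subtype d - H'.map (jh φ) d + H'.map A.subtype v := by
    apply hβ
    rw [hc, β.app_add, β.app_sub, β.nat, β.nat, β.nat, ← h5, E'.map_sub]
    conv_lhs => rw [hd]
    rw [E'.map_add, E'.map_add, hRc]
    abel
  have h7 : H'.map (HNNExtension.of (φ := φ)) y =
      H'.map (HNNExtension.of (φ := φ)) (H'.map A.subtype v) := by
    rw [h6, H'.map_add, H'.map_sub, hcomp, sub_self, zero_add]
  rw [h7]
  -- the orbit of `v`
  have h8 : ∀ j, j ≤ m → H'.map (HNNExtension.of (φ := φ)) (H'.map A.subtype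
      (H'.map (itr θ (K + j)) w)) = H'.map (HNNExtension.of (φ := φ)) (H'.map A.subtype v) := by
    intro j
    induction j with
    | zero => intro _; rw [hv]; rfl
    | succ j ih =>
      intro hj
      rw [← ih (by omega), ← add_assoc, ← hRw j (by omega), hcomp]
  have h9 : ∀ n, β.app A (∑ j ∈ Finset.range n, H'.map (itr θ (K + j)) w) =
      E'.map (itr θ K) c - E'.map (itr θ (K + n)) c := by
    intro n
    induction n with
    | zero => rw [Finset.sum_range_zero, β.app_zero, add_zero, sub_self]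
    | succ n ih =>
      rw [Finset.sum_range_succ, β.app_add, ih, ← itr_tel θ c w h4 (K + n)]
      abel
  have h10 : ∑ j ∈ Finset.range m, H'.map (itr θ (K + j)) w = 0 := by
    apply hβA
    rw [h9, hPc, sub_self, β.app_zero]
  apply htf
  have h11 : ∀ n, n ≤ m → (n : ℕ) • H'.map (HNNExtension.of (φ := φ)) (H'.map A.subtype v) =
      H'.map (HNNExtension.of (φ := φ)) (H'.map A.subtype
        (∑ j ∈ Finset.range n, H'.map (itr θ (K + j)) w)) := by
    intro n
    induction n with
    | zero => intro _; rw [zero_smul, Finset.sum_range_zero, H'.map_zero, H'.map_zero]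
    | succ n ih =>
      intro hn
      rw [Finset.sum_range_succ, H'.map_add, H'.map_add, ← ih (by omega), h8 n (by omega),
        succ_nsmul]
  rw [h11 m le_rfl, h10, H'.map_zero, H'.map_zero]

end Pool.Agent.Q262.NV
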