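import Pool.Agent.Q262.NV.Loc

/-!
# Groups with a normal subgroup with infinite cyclic quotient
-/

set_option autoImplicit false
set_option linter.unusedSectionVars false
set_option linter.unusedVariables false

namespace Pool.Agent.Q262.NV

open Pool.Agent.Q143.MV

variable {Γ : Type} [Group Γ] (π : Γ →* Multiplicative ℤ) (t : Γ)

/-- conjugation by `t` on the kernel -/
noncomputable def cj : (⊤ : Subgroup π.ker) ≃* (⊤ : Subgroup π.ker) :=
  Subgroup.topEquiv.trans ((MulAut.conjNormal t : MulAut π.ker).trans Subgroup.topEquiv.symm)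

theorem cj_apply (a : (⊤ : Subgroup π.ker)) : ((cj π t a : π.ker) : Γ) = t * (a : π.ker) * t⁻¹ :=
  rfl

/-- the homomorphism from the HNN extension -/
noncomputable def psi : HNNExtension π.ker ⊤ ⊤ (cj π t) →* Γ :=
  HNNExtension.lift π.ker.subtype t (by
    intro a
    change t * ((a : π.ker) : Γ) = ((cj π t a : π.ker) : Γ) * t
    rw [cj_apply, inv_mul_cancel_right])

theorem psi_of (a : π.ker) : psi π t (HNNExtension.of a) = a := by
  unfold psi
  rw [HNNExtension.lift_of]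
  rfl

theorem psi_t : psi π t HNNExtension.t = t := by
  unfold psi
  rw [HNNExtension.lift_t]

variable {π t} (ht : π t = Multiplicative.ofAdd 1)

include ht in
theorem pow_t (n : ℕ) : π (t ^ n) = Multiplicative.ofAdd (n : ℤ) := by
  rw [map_pow, ht, ← ofAdd_nsmul]
  congr 1
  simp

include ht in
theorem zpow_t (n : ℤ) : π (t ^ n) = Multiplicative.ofAdd n := by
  rw [map_zpow, ht, ← ofAdd_zsmul]
  congr 1
  simp

include ht in
theorem psi_bij : Function.Bijective (psi π t) := by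
  constructor
  · rw [injective_iff_map_eq_one]
    intro x hx
    obtain ⟨i, j, g, rfl⟩ := Pool.Agent.Helper688.LPres.normal_form x
    rw [map_mul, map_mul, map_inv, map_pow, map_pow, psi_of, psi_t] at hx
    have h1 := congrArg π hx
    rw [map_mul, map_mul, map_inv, pow_t ht, pow_t ht, map_one,
      show π (g : Γ) = 1 from g.2, mul_one, inv_mul_eq_one] at h1
    have h2 : (i : ℤ) = j := Multiplicative.ofAdd.injective h1
    have h3 : i = j := by exact_mod_cast h2
    subst h3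
    have h4 : (g : Γ) = 1 := by
      have h5 : (g : Γ) = t ^ i * ((t ^ i)⁻¹ * (g : Γ) * t ^ i) * (t ^ i)⁻¹ := by group
      rw [h5, hx, mul_one, mul_inv_cancel]
    have h6 : g = 1 := Subtype.ext h4
    rw [h6, map_one, mul_one, inv_mul_cancel]
  · intro x
    have hk : x * (t ^ (Multiplicative.toAdd (π x)))⁻¹ ∈ π.ker := by
      rw [MonoidHom.mem_ker, map_mul, map_inv, zpow_t ht]
      exact mul_inv_cancel _
    refine ⟨HNNExtension.of ⟨_, hk⟩ * HNNExtension.t ^ (Multiplicative.toAdd (π x)), ?_⟩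
    rw [map_mul, map_zpow, psi_of, psi_t]
    change x * (t ^ (Multiplicative.toAdd (π x)))⁻¹ * t ^ (Multiplicative.toAdd (π x)) = x
    rw [inv_mul_cancel_right]

/-- the isomorphism -/
noncomputable def psiE : HNNExtension π.ker ⊤ ⊤ (cj π t) ≃* Γ :=
  MulEquiv.ofBijective (psi π t) (psi_bij ht)

variable {H' H E' E : GFun} {β : GNat H' E'} {α : GNat H E}

theorem itr_cj (m : ℕ) (a : (⊤ : Subgroup π.ker)) :
    (((itr ((Subgroup.topEquiv.symm : π.ker ≃* (⊤ : Subgroup π.ker)).toMonoidHom.comp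
      (jh (cj π t))) m a : (⊤ : Subgroup π.ker)) : π.ker) : Γ) =
      t ^ m * ((a : π.ker) : Γ) * (t ^ m)⁻¹ := by
  induction m generalizing a with
  | zero => rw [pow_zero, one_mul, inv_one, mul_one]; rfl
  | succ m ih =>
    change (((itr ((Subgroup.topEquiv.symm : π.ker ≃* (⊤ : Subgroup π.ker)).toMonoidHom.comp
      (jh (cj π t))) m _ : (⊤ : Subgroup π.ker)) : π.ker) : Γ) = _
    rw [ih]
    change t ^ m * (t * ((a : π.ker) : Γ) * t⁻¹) * (t ^ m)⁻¹ = _
    rw [pow_succ, mul_inv_rev]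
    group

/-- **Infinite cyclic quotients.** -/
theorem inj_cyc (hL : HnnLadder β α) (hcE : Cont E') (hiE : InnerTriv E') (hcH : Cont H')
    (hiH : InnerTriv H') {Γ : Type} [Group Γ] (π : Γ →* Multiplicative ℤ)
    (hπ : Function.Surjective π)
    (h : ∀ F : Finset Γ, (∀ a ∈ F, π a = 1) → ∃ (m : ℕ) (γ : Γ), 0 < m ∧
      (∀ (G : Type) [Group G] (x : H'.obj G), m • x = 0 → x = 0) ∧
      π γ = Multiplicative.ofAdd (m : ℤ) ∧ ∀ a ∈ F, γ * a = a * γ)
    (hβ : Inj β π.ker) (hα : Inj α π.ker) : Inj β Γ := by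
  classical
  obtain ⟨t, ht⟩ := hπ (Multiplicative.ofAdd 1)
  have key : Inj β (HNNExtension π.ker ⊤ ⊤ (cj π t)) := by
    refine inj_retr hL hcE hiE hcH hiH
      (Subgroup.topEquiv.symm : π.ker ≃* (⊤ : Subgroup π.ker)).toMonoidHom (fun a => rfl)
      (fun F => ⟨0, 1, fun a _ => ?_⟩) (fun F => ?_) hβ hα
    · rw [one_mul, inv_one, mul_one]
      rfl
    · obtain ⟨m, γ, hm, htf, hγ, hc⟩ := h (Finset.image (fun a : (⊤ : Subgroup π.ker) => ((a : π.ker) : Γ)) F) (by
        intro a ha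
        obtain ⟨b, _, rfl⟩ := Finset.mem_image.1 ha
        exact (b : π.ker).2)
      have hb : (γ * (t ^ m)⁻¹)⁻¹ ∈ π.ker := by
        rw [MonoidHom.mem_ker, map_inv, map_mul, map_inv, pow_t ht, hγ, mul_inv_cancel, inv_one]
      refine ⟨0, m, ⟨⟨_, hb⟩, trivial⟩, hm, fun x hx => htf _ x hx, fun a ha => ?_⟩
      apply Subtype.ext
      apply Subtype.ext
      rw [zero_add, itr_cj]
      change t ^ m * ((a : π.ker) : Γ) * (t ^ m)⁻¹ =
        (γ * (t ^ m)⁻¹)⁻¹ * ((a : π.ker) : Γ) * ((γ * (t ^ m)⁻¹)⁻¹)⁻¹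
      have h1 := hc ((a : π.ker) : Γ) (Finset.mem_image.2 ⟨a, ha, rfl⟩)
      have h2 : ((a : π.ker) : Γ) = γ⁻¹ * ((a : π.ker) : Γ) * γ := by
        rw [mul_assoc, ← h1]; group
      conv_lhs => rw [h2]
      group
  exact inj_retract β (psiE ht).symm.toMonoidHom (psiE ht).toMonoidHom
    (fun g => (psiE ht).apply_symm_apply g) key

end Pool.Agent.Q262.NV
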