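import Pool.Agent.Q262.NV.MonoCyc

/-!
# Groups of transformations with an infinite cyclic group of germs at a fixed point
-/

set_option autoImplicit false
set_option linter.unusedSectionVars false
set_option linter.unusedVariables false

namespace Pool.Agent.Q262.NV

open Topology

theorem commute_of_support {Γ X : Type} [Group Γ] [MulAction Γ X] [FaithfulSMul Γ X] (W : Set X)
    (γ a : Γ) (hγ : ∀ x, x ∉ W → γ • x = x) (ha : ∀ x ∈ W, a • x = x) : γ * a = a * γ := by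
  apply FaithfulSMul.eq_of_smul_eq_smul (M := Γ) (α := X)
  intro x
  rw [mul_smul, mul_smul]
  by_cases hx : x ∈ W
  · have h1 : γ • x ∈ W := by
      by_contra h
      have h2 := hγ _ h
      have h3 : γ • x = x := (smul_left_cancel_iff γ).1 h2
      exact h (h3.symm ▸ hx)
    rw [ha x hx, ha _ h1]
  · have h1 : a • x ∉ W := by
      intro h
      have h2 := ha _ h
      have h3 : a • x = x := (smul_left_cancel_iff a).1 h2
      exact hx (h3 ▸ h)
    rw [hγ x hx, hγ _ h1]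

/-- **Germs.** -/
theorem kerTor_germ (S : Submonoid ℕ) (H E : ℤ → MFun) (α : ∀ n, MNat (H n) (E n))
    (hL : ∀ n, HnnLadderM (α (n + 1)) (α n)) (hcH : ∀ n, ContM (H n)) (hcE : ∀ n, ContM (E n))
    (hkE : ∀ n, ContKerM (E n)) (hiE : ∀ n, InnerTrivM (E n))
    {Γ X : Type} [Group Γ] [TopologicalSpace X] [MulAction Γ X] [FaithfulSMul Γ X] (p : X)
    (π : Γ →* Multiplicative ℤ) (hπ : Function.Surjective π)
    (hker : ∀ g, π g = 1 ↔ ∃ U ∈ 𝓝 p, ∀ x ∈ U, g • x = x)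
    (hsm : ∀ U ∈ 𝓝 p, ∃ (m : ℕ) (γ : Γ), m ∈ S ∧ π γ = Multiplicative.ofAdd (m : ℤ) ∧
      ∀ x, x ∉ U → γ • x = x)
    (hN : ∀ n, ∀ U ∈ 𝓝 p, KerTor S (α n) (fixingSubgroup Γ U)) (n : ℤ) :
    KerTor S (α n) Γ := by
  classical
  have hle : ∀ U ∈ 𝓝 p, fixingSubgroup Γ U ≤ π.ker := by
    intro U hU g hg
    rw [MonoidHom.mem_ker]
    exact (hker g).2 ⟨U, hU, (mem_fixingSubgroup_iff Γ).1 hg⟩
  have hI : ∀ n, KerTor S (α n) π.ker := by
    intro n
    let I : Type := {U : Set X // U ∈ 𝓝 p}ᵒᵈ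
    have : Nonempty I := ⟨OrderDual.toDual ⟨Set.univ, Filter.univ_mem⟩⟩
    refine kerTor_union S (α n) (hcH n) (hkE n) π.ker I ?_
      (fun U => (fixingSubgroup Γ (OrderDual.ofDual U).1).subgroupOf π.ker) ?_ ?_ ?_
    · intro U V
      exact ⟨OrderDual.toDual ⟨(OrderDual.ofDual U).1 ∩ (OrderDual.ofDual V).1,
        Filter.inter_mem (OrderDual.ofDual U).2 (OrderDual.ofDual V).2⟩,
        Set.inter_subset_left, Set.inter_subset_right⟩
    · intro U V hUV g hg
      rw [Subgroup.mem_subgroupOf, mem_fixingSubgroup_iff] at hg ⊢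
      exact fun y hy => hg y (hUV hy)
    · rintro ⟨g, hg⟩
      obtain ⟨U, hU, h1⟩ := (hker g).1 hg
      refine ⟨OrderDual.toDual ⟨U, hU⟩, ?_⟩
      rw [Subgroup.mem_subgroupOf, mem_fixingSubgroup_iff]
      exact h1
    · intro U
      exact kerTor_equiv S (α n) (Subgroup.subgroupOfEquivOfLe (hle _ (OrderDual.ofDual U).2))
        (hN n _ (OrderDual.ofDual U).2)
  obtain ⟨n, rfl⟩ : ∃ k, n = k + 1 := ⟨n - 1, by ring⟩
  refine kerTor_cyc π S (hL n) (hcE _) (hiE _) hπ (fun A hA => ?_) (hI _) (hI _)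
  have hW : ∃ W ∈ 𝓝 p, ∀ a ∈ A, ∀ x ∈ W, a • x = x := by
    induction A using Finset.induction_on with
    | empty => exact ⟨Set.univ, Filter.univ_mem, by simp⟩
    | insert a A _ ih =>
      obtain ⟨W, hW, h1⟩ := ih fun b hb => hA b (Finset.mem_insert_of_mem hb)
      obtain ⟨U, hU, h2⟩ := (hker a).1 (hA a (Finset.mem_insert_self a A))
      refine ⟨W ∩ U, Filter.inter_mem hW hU, fun b hb x hx => ?_⟩
      rcases Finset.mem_insert.1 hb with rfl | hb
      · exact h2 x hx.2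
      · exact h1 b hb x hx.1
  obtain ⟨W, hW, h1⟩ := hW
  obtain ⟨m, γ, hm, hγ, h2⟩ := hsm W hW
  exact ⟨m, γ, hm, hγ, fun a ha => commute_of_support W γ a h2 (h1 a ha)⟩

end Pool.Agent.Q262.NV
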