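import Pool.Agent.Q262.NV.Mono

/-!
# Functors on monomorphisms: infinite cyclic quotients and ascending series
-/

set_option autoImplicit false
set_option linter.unusedSectionVars false
set_option linter.unusedVariables false

namespace Pool.Agent.Q262.NV

open Pool.Agent.Q143.MV (jh)

variable {H' H E' E : MFun} {β : MNat H' E'} {α : MNat H E}

theorem cn_inj {Γ : Type} [Group Γ] {N : Subgroup Γ} [N.Normal] (g : Γ) :
    Function.Injective (MulAut.conjNormal g : MulAut N).toMonoidHom :=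
  (MulAut.conjNormal g : MulAut N).injective

/-- the effect of conjugations on a normal subgroup -/
def cn (F : MFun) {Γ : Type} [Group Γ] {N : Subgroup Γ} [N.Normal] (g : Γ) (x : F.obj N) :
    F.obj N := F.map (MulAut.conjNormal g : MulAut N).toMonoidHom (cn_inj g) x

theorem cn_mul (F : MFun) {Γ : Type} [Group Γ] {N : Subgroup Γ} [N.Normal] (g h : Γ)
    (x : F.obj N) : cn F (g * h) x = cn F g (cn F h x) := by
  unfold cn
  symm
  apply F.map_comp'
  ext a
  change g * h * (a : Γ) * (g * h)⁻¹ = g * (h * a * h⁻¹) * g⁻¹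
  group

theorem cn_one (F : MFun) {Γ : Type} [Group Γ] {N : Subgroup Γ} [N.Normal]
    (x : F.obj N) : cn F (1 : Γ) x = x := by
  unfold cn
  rw [F.map_congr (f' := MonoidHom.id N) (MonoidHom.ext fun a => Subtype.ext (by
    change 1 * (a : Γ) * 1⁻¹ = a
    rw [one_mul, inv_one, mul_one])) _ Function.injective_id, F.map_id]

/-- if `γ` commutes with a finite set up to a conjugation -/
theorem cn_eq (F : MFun) (hc : ContM F) (hi : InnerTrivM F) {Γ : Type} [Group Γ] {N : Subgroup Γ}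
    [N.Normal] (x : F.obj N) : ∃ A : Finset Γ, (∀ a ∈ A, a ∈ N) ∧ ∀ g : Γ,
      (∃ ν ∈ N, ∀ a ∈ A, g * ν * a = a * (g * ν)) → cn F g x = x := by
  classical
  obtain ⟨A, y, hy⟩ := from_fgM hc N x
  refine ⟨A.image (fun a : N => (a : Γ)), fun a ha => ?_, ?_⟩
  · obtain ⟨b, _, rfl⟩ := Finset.mem_image.1 ha
    exact b.2
  · rintro g ⟨ν, hν, hg⟩
    have hb : g * ν⁻¹ * g⁻¹ ∈ N := Subgroup.Normal.conj_mem inferInstance _ (N.inv_mem hν) g
    unfold cn
    have h1 := conj_onM hi (MulAut.conjNormal g : MulAut N).toMonoidHom (MonoidHom.id N)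
      (cn_inj g) Function.injective_id A (⟨_, hb⟩ : N) (by
        intro a ha
        apply Subtype.ext
        change g * (a : Γ) * g⁻¹ = g * ν⁻¹ * g⁻¹ * (a : Γ) * (g * ν⁻¹ * g⁻¹)⁻¹
        have h2 := hg (a : Γ) (Finset.mem_image.2 ⟨a, ha, rfl⟩)
        have h3 : (a : Γ) = (g * ν) * (a : Γ) * (g * ν)⁻¹ := by
          rw [h2, mul_inv_cancel_right]
        conv_rhs => rw [h3]
        group) y
    rw [hy, h1, F.map_id]

variable {Γ : Type} [Group Γ] (π : Γ →* Multiplicative ℤ) (t : Γ)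

/-- the effect of the two inclusions -/
theorem jh_cj (F : MFun) (c : F.obj (⊤ : Subgroup π.ker)) :
    F.map (jh (cj π t)) (jh_injective _) c =
      cn F t (F.map (⊤ : Subgroup π.ker).subtype (Subgroup.subtype_injective _) c) := by
  unfold cn
  symm
  apply F.map_comp'
  rfl

variable {t}

/-- **Infinite cyclic quotients.** -/
theorem kerTor_cyc (S : Submonoid ℕ) (hL : HnnLadderM β α) (hc : ContM E') (hi : InnerTrivM E')
    (hπ : Function.Surjective π)
    (h : ∀ A : Finset Γ, (∀ a ∈ A, π a = 1) → ∃ (m : ℕ) (γ : Γ), m ∈ S ∧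
      π γ = Multiplicative.ofAdd (m : ℤ) ∧ ∀ a ∈ A, γ * a = a * γ)
    (hβ : KerTor S β π.ker) (hα : KerTor S α π.ker) : KerTor S β Γ := by
  classical
  obtain ⟨t, ht⟩ := hπ (Multiplicative.ofAdd 1)
  have key : KerTor S β (HNNExtension π.ker ⊤ ⊤ (cj π t)) := by
    obtain ⟨⟨δ, ε, hδε, hδ⟩, hcomp, -, hker⟩ := hL π.ker ⊤ ⊤ (cj π t)
    have hα' : KerTor S α (⊤ : Subgroup π.ker) := kerTor_equiv S α Subgroup.topEquiv hα
    intro x hx
    obtain ⟨s, hs, h1⟩ := hα' (δ x) (by rw [hδε, hx, map_zero])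
    obtain ⟨y, hy⟩ := hδ (s • x) (by rw [map_nsmul, h1])
    have h2 : E'.map (HNNExtension.of (φ := cj π t)) (HNNExtension.of_injective _)
        (β.app π.ker y) = 0 := by
      rw [← β.nat, ← hy, β.app_nsmul, hx, nsmul_zero]
    obtain ⟨c, hcc⟩ := hker _ h2
    rw [jh_cj] at hcc
    obtain ⟨e, he⟩ : ∃ e, e = E'.map (⊤ : Subgroup π.ker).subtype
      (Subgroup.subtype_injective _) c := ⟨_, rfl⟩
    rw [← he] at hcc
    -- the periodicity
    obtain ⟨A, hA, hA'⟩ := cn_eq E' hc hi e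
    obtain ⟨m, γ, hm, hγ, hcomm⟩ := h A hA
    have hper : cn E' (t ^ m) e = e := by
      apply hA'
      refine ⟨(t ^ m)⁻¹ * γ, ?_, fun a ha => ?_⟩
      · rw [MonoidHom.mem_ker, map_mul, map_inv, pow_t ht, hγ, inv_mul_cancel]
      · rw [mul_inv_cancel_left]
        exact hcomm a ha
    have h3 : ∀ n, β.app π.ker (∑ j ∈ Finset.range n, cn H' (t ^ j) y) =
        e - cn E' (t ^ n) e := by
      intro n
      rw [β.app_sum]
      induction n with
      | zero => rw [Finset.sum_range_zero, pow_zero, cn_one, sub_self]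
      | succ n ih =>
        rw [Finset.sum_range_succ, ih]
        have h4 : β.app π.ker (cn H' (t ^ n) y) = cn E' (t ^ n) e - cn E' (t ^ (n + 1)) e := by
          unfold cn
          rw [β.nat, hcc, E'.map_sub]
          congr 1
          have := (cn_mul E' (t ^ n) t e).symm
          rw [← pow_succ] at this
          exact this
        rw [h4]
        abel
    obtain ⟨s', hs', h5⟩ := hβ _ (by rw [h3 m, hper, sub_self])
    have h6 : ∀ z : H'.obj π.ker, H'.map (HNNExtension.of (φ := cj π t))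
        (HNNExtension.of_injective _) (cn H' t z) = H'.map (HNNExtension.of (φ := cj π t))
        (HNNExtension.of_injective _) z := by
      intro z
      have h7 := hcomp (H'.map (Subgroup.topEquiv (G := π.ker)).symm.toMonoidHom (eqv_inj _) z)
      rw [jh_cj, H'.map_comp' (k := MonoidHom.id π.ker) rfl Function.injective_id,
        H'.map_id] at h7
      exact h7.symm
    have h8 : ∀ j : ℕ, H'.map (HNNExtension.of (φ := cj π t)) (HNNExtension.of_injective _)
        (cn H' (t ^ j) y) = s • x := by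
      intro j
      induction j with
      | zero => rw [pow_zero, cn_one, hy]
      | succ j ih =>
        rw [pow_succ', cn_mul, h6, ih]
    refine ⟨s' * (m * s), S.mul_mem hs' (S.mul_mem hm hs), ?_⟩
    have h9 := congrArg (H'.map (HNNExtension.of (φ := cj π t)) (HNNExtension.of_injective _)) h5
    rw [H'.map_nsmul, H'.map_zero, H'.map_sum, Finset.sum_congr rfl (fun j _ => h8 j),
      Finset.sum_const, Finset.card_range] at h9
    rw [mul_nsmul', mul_nsmul']
    exact h9
  exact kerTor_equiv S β (psiE ht).symm key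

/-- **Directed unions.** -/
theorem kerTor_union (S : Submonoid ℕ) {H E : MFun} (α : MNat H E) (hc : ContM H)
    (hk : ContKerM E) (G : Type) [Group G] (I : Type)
    [Preorder I] [Nonempty I] (hd : ∀ i j : I, ∃ k, i ≤ k ∧ j ≤ k) (U : I → Subgroup G)
    (hU' : Monotone U) (hU : ∀ g, ∃ i, g ∈ U i) (h : ∀ i, KerTor S α (U i)) : KerTor S α G := by
  intro x hx
  obtain ⟨i, y, rfl⟩ := hc G I hd U hU' hU x
  rw [α.nat] at hx
  obtain ⟨j, hij, hj⟩ := hk G I hd U hU' hU i _ hx
  rw [← α.nat] at hj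
  obtain ⟨s, hs, h1⟩ := h j _ hj
  refine ⟨s, hs, ?_⟩
  have h2 := congrArg (H.map (U j).subtype (Subgroup.subtype_injective _)) h1
  rw [H.map_nsmul, H.map_zero, H.map_comp' (k := (U i).subtype) (by ext a; rfl)
    (Subgroup.subtype_injective _)] at h2
  exact h2

/-- **Ascending series with infinite cyclic factors.** -/
theorem kerTor_tower (S : Submonoid ℕ) (H E : ℤ → MFun) (α : ∀ n, MNat (H n) (E n))
    (hL : ∀ n, HnnLadderM (α (n + 1)) (α n)) (hcH : ∀ n, ContM (H n)) (hcE : ∀ n, ContM (E n))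
    (hkE : ∀ n, ContKerM (E n)) (hiE : ∀ n, InnerTrivM (E n))
    {Γ : Type} [Group Γ] {N : Subgroup Γ}
    (hC : ∀ (γ : Γ) (F : Finset Γ), ∃ (m : ℕ) (ν : Γ), m ∈ S ∧ ν ∈ N ∧
      ∀ a ∈ F, γ ^ m * ν * a = a * (γ ^ m * ν))
    {M : Subgroup Γ} (hM : Tower N M) (hN : ∀ n, KerTor S (α n) N) :
    ∀ n, KerTor S (α n) M := by
  classical
  induction hM with
  | base => exact hN
  | @step M M' π hT hπ hle hker ih =>
    intro n
    obtain ⟨n, rfl⟩ : ∃ k, n = k + 1 := ⟨n - 1, by ring⟩
    have hke : π.ker = M.subgroupOf M' := by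
      ext x
      rw [MonoidHom.mem_ker, Subgroup.mem_subgroupOf]
      exact hker x
    have hI : ∀ n, KerTor S (α n) π.ker := fun n =>
      kerTor_equiv S (α n)
        ((MulEquiv.subgroupCongr hke).trans (Subgroup.subgroupOfEquivOfLe hle)) (ih n)
    obtain ⟨t, ht⟩ := hπ (Multiplicative.ofAdd 1)
    refine kerTor_cyc π S (hL n) (hcE _) (hiE _) hπ (fun F hF => ?_) (hI _) (hI _)
    obtain ⟨m, ν, hm, hν, hc⟩ := hC t (Finset.image (fun a : M' => (a : Γ)) F)
    have hν' : ν ∈ M := hT.le hν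
    refine ⟨m, t ^ m * ⟨ν, hle hν'⟩, hm, ?_, fun a ha => ?_⟩
    · rw [map_mul, pow_t ht, (hker ⟨ν, hle hν'⟩).2 hν', mul_one]
    · apply Subtype.ext
      exact hc a (Finset.mem_image.2 ⟨a, ha, rfl⟩)
  | union I U hd hU hT ih =>
    intro n
    have hle : ∀ i, U i ≤ ⨆ i, U i := fun i => le_iSup U i
    refine kerTor_union S (α n) (hcH n) (hkE n) _ I hd (fun i => (U i).subgroupOf (⨆ i, U i)) ?_ ?_
      (fun i => kerTor_equiv S (α n) (Subgroup.subgroupOfEquivOfLe (hle i)) (ih i n))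
    · intro i j hij x hx
      exact hU hij hx
    · rintro ⟨g, hg⟩
      have hdir : Directed (· ≤ ·) U := fun i j => by
        obtain ⟨k, h1, h2⟩ := hd i j
        exact ⟨k, hU h1, hU h2⟩
      obtain ⟨i, hi⟩ := (Subgroup.mem_iSup_of_directed hdir).1 hg
      exact ⟨i, hi⟩

end Pool.Agent.Q262.NV
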