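import Pool.Agent.Q262.NV.Germ

/-!
# The Mayer–Vietoris sequences of HNN extensions, with abbreviations
-/

set_option autoImplicit false

namespace Pool.Agent.Q262.NV

open Pool.Agent.Q143.MV (jh)

/-- An isomorphism `φ` between two subgroups `A` and `B` of `G`. -/
structure PIso (G : Type) [Group G] where
  /-- the first subgroup -/
  A : Subgroup G
  /-- the second subgroup -/
  B : Subgroup G
  /-- the isomorphism -/
  φ : A ≃* B

namespace PIso

variable {G : Type} [Group G] (P : PIso G)

/-- The HNN extension `⟨G, t | t a t⁻¹ = φ(a)⟩` of `G` along `φ : A → B`. -/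
def Ext : Type := HNNExtension G P.A P.B P.φ

noncomputable instance : Group P.Ext := inferInstanceAs (Group (HNNExtension G P.A P.B P.φ))

/-- the inclusion of `G` in the HNN extension -/
noncomputable def of : G →* P.Ext := HNNExtension.of

theorem of_inj : Function.Injective P.of := HNNExtension.of_injective P.φ

/-- `φ` agrees on every finite subset of `A` with the conjugation by an element of `G`. -/
def LocallyInner : Prop := ∀ F : Finset P.A, ∃ g : G, ∀ a ∈ F, (P.φ a : G) = g * a * g⁻¹

end PIso

section
variable (F : MFun) {G : Type} [Group G] (P : PIso G)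

/-- the map of `F` induced by the inclusion of the base group in the HNN extension -/
noncomputable def toHnn (x : F.obj G) : F.obj P.Ext := F.map P.of P.of_inj x

/-- the map of `F` induced by the inclusion of the associated subgroup `A` -/
def incA (c : F.obj P.A) : F.obj G := F.map P.A.subtype P.A.subtype_injective c

/-- the map of `F` induced by `φ`, as a map to `G` -/
def incB (c : F.obj P.A) : F.obj G := F.map (jh P.φ) (jh_injective P.φ) c

end

variable {H' H E' E : MFun}

/-- The kernel of `F(G) → F(HNN extension)` consists of the differences of the two images of the elements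
of `F(A)`. -/
def ExactBase (F : MFun) : Prop :=
  ∀ (G : Type) [Group G] (P : PIso G) (y : F.obj G),
    toHnn F P y = 0 ↔ ∃ c : F.obj P.A, y = incA F P c - incB F P c

/-- additive maps -/
def IsAdd {X Y : Type} [AddCommGroup X] [AddCommGroup Y] (d : X → Y) : Prop :=
  ∀ x y, d (x + y) = d x + d y

/-- There are boundary homomorphisms which commute with the natural transformations, and elements in the
kernel of the boundary map of `H'` come from the base group. -/
def Boundary (β : MNat H' E') (α : MNat H E) : Prop :=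
  ∀ (G : Type) [Group G] (P : PIso G), ∃ (δ : H'.obj P.Ext → H.obj P.A)
    (ε : E'.obj P.Ext → E.obj P.A), IsAdd δ ∧ IsAdd ε ∧
      (∀ x, α.app P.A (δ x) = ε (β.app P.Ext x)) ∧ ∀ x, δ x = 0 → ∃ y, x = toHnn H' P y

theorem ladder_of {β : MNat H' E'} {α : MNat H E} (h1 : ExactBase H') (h2 : ExactBase E')
    (h3 : Boundary β α) : HnnLadderM β α := by
  intro G _ A B φ
  obtain ⟨δ, ε, a1, a2, a3, a4⟩ := h3 G ⟨A, B, φ⟩
  refine ⟨⟨AddMonoidHom.mk' δ a1, AddMonoidHom.mk' ε a2, a3, a4⟩, fun d => ?_,
    fun y hy => (h1 G ⟨A, B, φ⟩ y).1 hy, fun y hy => (h2 G ⟨A, B, φ⟩ y).1 hy⟩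
  have h4 := (h1 G ⟨A, B, φ⟩ (incA H' ⟨A, B, φ⟩ d - incB H' ⟨A, B, φ⟩ d)).2 ⟨d, rfl⟩
  unfold toHnn at h4
  rw [H'.map_sub, sub_eq_zero] at h4
  exact h4

end Pool.Agent.Q262.NV
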