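import Pool.Agent.Q262.NV.Cyc

/-!
# Ascending series with infinite cyclic factors
-/

set_option autoImplicit false
set_option linter.unusedSectionVars false
set_option linter.unusedVariables false

namespace Pool.Agent.Q262.NV

open Pool.Agent.Q143.MV

/-- For a directed union of subgroups, an element of `E` of a member which dies in `E(G)` dies in `E` of
a larger member. -/
def ContKer (E : GFun) : Prop :=
  ∀ (G : Type) [Group G] (I : Type) [Preorder I] [Nonempty I],
    (∀ i j : I, ∃ k, i ≤ k ∧ j ≤ k) → ∀ (S : I → Subgroup G) (hS : Monotone S),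
    (∀ g, ∃ i, g ∈ S i) → ∀ (i : I) (x : E.obj (S i)), E.map (S i).subtype x = 0 →
      ∃ (j : I) (h : i ≤ j), E.map (Subgroup.inclusion (hS h)) x = 0

/-- The subgroups of `Γ` which are reached from `N` by an ascending series with infinite cyclic factors:
the smallest class of subgroups which contains `N`, contains with `M` every subgroup `M'` in which `M`
is normal with infinite cyclic quotient, and is closed under directed unions. -/
inductive Tower {Γ : Type} [Group Γ] (N : Subgroup Γ) : Subgroup Γ → Prop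
  | base : Tower N N
  | step {M M' : Subgroup Γ} (π : M' →* Multiplicative ℤ) : Tower N M →
      Function.Surjective π → M ≤ M' → (∀ x : M', π x = 1 ↔ (x : Γ) ∈ M) → Tower N M'
  | union (I : Type) [Preorder I] [Nonempty I] (S : I → Subgroup Γ) :
      (∀ i j : I, ∃ k, i ≤ k ∧ j ≤ k) → Monotone S → (∀ i, Tower N (S i)) → Tower N (⨆ i, S i)

theorem Tower.le {Γ : Type} [Group Γ] {N M : Subgroup Γ} (h : Tower N M) : N ≤ M := by
  induction h with
  | base => exact le_rfl
  | step π _ _ h2 _ ih => exact ih.trans h2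
  | union I S _ _ _ ih =>
    exact (ih (Classical.arbitrary I)).trans (le_iSup S _)

variable {H E : GFun}

theorem inj_equiv (α : GNat H E) {G G' : Type} [Group G] [Group G'] (e : G ≃* G')
    (h : Inj α G') : Inj α G :=
  inj_retract α e.toMonoidHom e.symm.toMonoidHom (fun g => e.symm_apply_apply g) h

/-- **Directed unions.** -/
theorem inj_union (α : GNat H E) (hc : Cont H) (hk : ContKer E) (G : Type) [Group G] (I : Type)
    [Preorder I] [Nonempty I] (hd : ∀ i j : I, ∃ k, i ≤ k ∧ j ≤ k) (S : I → Subgroup G)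
    (hS : Monotone S) (hU : ∀ g, ∃ i, g ∈ S i) (h : ∀ i, Inj α (S i)) : Inj α G := by
  refine α.inj_of _ (fun x hx => ?_)
  obtain ⟨i, y, rfl⟩ := hc G I hd S hS hU x
  rw [α.nat] at hx
  obtain ⟨j, hij, hj⟩ := hk G I hd S hS hU i _ hx
  rw [← α.nat] at hj
  have h1 : H.map (Subgroup.inclusion (hS hij)) y = 0 := h j (by rw [hj, α.app_zero])
  have h2 : (S i).subtype = (S j).subtype.comp (Subgroup.inclusion (hS hij)) := by
    ext a; rfl
  rw [h2, H.map_comp, h1, H.map_zero]

/-- **Ascending series with infinite cyclic factors.** -/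
theorem inj_tower (H E : ℤ → GFun) (α : ∀ n, GNat (H n) (E n))
    (hL : ∀ n, HnnLadder (α (n + 1)) (α n)) (hcH : ∀ n, Cont (H n)) (hcE : ∀ n, Cont (E n))
    (hkE : ∀ n, ContKer (E n)) (hiH : ∀ n, InnerTriv (H n)) (hiE : ∀ n, InnerTriv (E n))
    {Γ : Type} [Group Γ] {N : Subgroup Γ}
    (hC : ∀ (γ : Γ) (F : Finset Γ), ∃ (m : ℕ) (ν : Γ), 0 < m ∧
      (∀ (n : ℤ) (G : Type) [Group G] (x : (H n).obj G), m • x = 0 → x = 0) ∧ ν ∈ N ∧
      ∀ a ∈ F, γ ^ m * ν * a = a * (γ ^ m * ν))
    {M : Subgroup Γ} (hM : Tower N M) (hN : ∀ n, Inj (α n) N) : ∀ n, Inj (α n) M := by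
  classical
  induction hM with
  | base => exact hN
  | @step M M' π hT hπ hle hker ih =>
    intro n
    obtain ⟨n, rfl⟩ : ∃ k, n = k + 1 := ⟨n - 1, by ring⟩
    have hke : π.ker = M.subgroupOf M' := by
      ext x
      rw [MonoidHom.mem_ker, Subgroup.mem_subgroupOf]
      exact hker x
    have hI : ∀ n, Inj (α n) π.ker := fun n =>
      inj_equiv (α n) ((MulEquiv.subgroupCongr hke).trans (Subgroup.subgroupOfEquivOfLe hle)) (ih n)
    obtain ⟨t, ht⟩ := hπ (Multiplicative.ofAdd 1)
    refine inj_cyc (hL n) (hcE _) (hiE _) (hcH _) (hiH _) π hπ (fun F hF => ?_) (hI _) (hI _)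
    obtain ⟨m, ν, hm, htf, hν, hc⟩ := hC t (Finset.image (fun a : M' => (a : Γ)) F)
    have hν' : ν ∈ M := hT.le hν
    refine ⟨m, t ^ m * ⟨ν, hle hν'⟩, hm, fun G _ x hx => htf _ G x hx, ?_, fun a ha => ?_⟩
    · rw [map_mul, pow_t ht, (hker ⟨ν, hle hν'⟩).2 hν', mul_one]
    · apply Subtype.ext
      exact hc a (Finset.mem_image.2 ⟨a, ha, rfl⟩)
  | union I S hd hS hT ih =>
    intro n
    have hle : ∀ i, S i ≤ ⨆ i, S i := fun i => le_iSup S i
    refine inj_union (α n) (hcH n) (hkE n) _ I hd (fun i => (S i).subgroupOf (⨆ i, S i)) ?_ ?_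
      (fun i => inj_equiv (α n) (Subgroup.subgroupOfEquivOfLe (hle i)) (ih i n))
    · intro i j hij x hx
      exact hS hij hx
    · rintro ⟨g, hg⟩
      have hdir : Directed (· ≤ ·) S := fun i j => by
        obtain ⟨k, h1, h2⟩ := hd i j
        exact ⟨k, hS h1, hS h2⟩
      obtain ⟨i, hi⟩ := (Subgroup.mem_iSup_of_directed hdir).1 hg
      exact ⟨i, hi⟩

end Pool.Agent.Q262.NV
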